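import Mathlib

namespace Pool.Agent.Results.MP_91d3dc_co.LowCostWalks

open Finset

/-- A `k`-DFA with `N` states. -/
structure KDFA (k N : ℕ) where
  /-- transition function -/
  δ : Fin N → Fin k → Fin N
  /-- root -/
  root : Fin N
  /-- cost function -/
  c : Fin N → Fin k → ℕ
  /-- for every state the costs form a permutation of `{1,…,k}` -/
  hc : ∀ v, Set.BijOn (c v) Set.univ (Set.Icc 1 k)

namespace KDFA

variable {k N : ℕ}

/-- The cost of the walk starting at state `v` and reading the word `w`. -/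
def cost (D : KDFA k N) : Fin N → List (Fin k) → ℕ
  | _, [] => 0
  | v, t :: w => D.c v t + D.cost (D.δ v t) w

/-- The number of permutational words `w` whose walk from the root has cost at most `n`. -/
noncomputable def good (D : KDFA k N) (n : ℝ) : ℕ :=
  Nat.card {w : Equiv.Perm (Fin k) // (D.cost D.root (List.ofFn w) : ℝ) ≤ n}

end KDFA

/-- `G(k,n,N)`: the maximum over all `k`-DFAs with `N` states of the number of permutational words
of cost at most `n`. -/
noncomputable def G (k : ℕ) (n : ℝ) (N : ℕ) : ℕ := ⨆ D : KDFA k N, D.good n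

namespace KDFA

variable {k N : ℕ} (D : KDFA k N)

/-- state after `m` steps -/
def st (v : Fin N) (a : ℕ → Fin k) : ℕ → Fin N
  | 0 => v
  | m + 1 => D.δ (st v a m) (a m)

/-- cost of the first `m` steps -/
def cs (v : Fin N) (a : ℕ → Fin k) : ℕ → ℕ
  | 0 => 0
  | m + 1 => cs v a m + D.c (D.st v a m) (a m)

lemma st_add (v : Fin N) (a : ℕ → Fin k) (s m : ℕ) :
    D.st v a (s + m) = D.st (D.st v a s) (fun i => a (s + i)) m := by
  induction m with
  | zero => rfl
  | succ m ih =>
    show D.δ (D.st v a (s + m)) (a (s + m)) = D.δ (D.st (D.st v a s) (fun i => a (s + i)) m) _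
    rw [ih]

lemma cs_add (v : Fin N) (a : ℕ → Fin k) (s m : ℕ) :
    D.cs v a (s + m) = D.cs v a s + D.cs (D.st v a s) (fun i => a (s + i)) m := by
  induction m with
  | zero => rfl
  | succ m ih =>
    show D.cs v a (s + m) + D.c (D.st v a (s + m)) (a (s + m)) =
      D.cs v a s + (D.cs (D.st v a s) (fun i => a (s + i)) m +
        D.c (D.st (D.st v a s) (fun i => a (s + i)) m) (a (s + m)))
    rw [ih, st_add, add_assoc]

lemma cost_ofFn (m : ℕ) : ∀ (v : Fin N) (a : ℕ → Fin k),
    D.cost v (List.ofFn (fun i : Fin m => a i)) = D.cs v a m := by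
  induction m with
  | zero => intro v a; rfl
  | succ m ih =>
    intro v a
    rw [List.ofFn_succ]
    show D.c v (a 0) + D.cost (D.δ v (a 0)) (List.ofFn (fun i : Fin m => a (i + 1))) = _
    rw [ih (D.δ v (a 0)) (fun i => a (i + 1)), Nat.add_comm m 1, cs_add]
    show _ = (0 + D.c v (a 0)) + _
    rw [Nat.zero_add]
    congr 1
    show D.cs (D.δ v (a 0)) (fun i => a (i + 1)) m = D.cs (D.δ v (a 0)) (fun i => a (1 + i)) m
    simp only [Nat.add_comm]

lemma st_congr (v : Fin N) {a b : ℕ → Fin k} (m : ℕ) (h : ∀ i < m, a i = b i) :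
    D.st v a m = D.st v b m := by
  induction m with
  | zero => rfl
  | succ m ih =>
    show D.δ _ _ = D.δ _ _
    rw [ih (fun i hi => h i (by omega)), h m (by omega)]

lemma cs_congr (v : Fin N) {a b : ℕ → Fin k} (m : ℕ) (h : ∀ i < m, a i = b i) :
    D.cs v a m = D.cs v b m := by
  induction m with
  | zero => rfl
  | succ m ih =>
    show D.cs v a m + D.c _ _ = D.cs v b m + D.c _ _
    rw [ih (fun i hi => h i (by omega)), h m (by omega),
      D.st_congr v m (fun i hi => h i (by omega))]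

lemma cs_mono (v : Fin N) (a : ℕ → Fin k) {m m' : ℕ} (h : m ≤ m') :
    D.cs v a m ≤ D.cs v a m' := by
  obtain ⟨d, rfl⟩ := Nat.exists_eq_add_of_le h
  rw [cs_add]
  exact Nat.le_add_right _ _

/-- many blocks -/
lemma blocks (a : ℕ → Fin k) (L : ℕ) (T : ℝ) : ∀ (B : ℕ),
    (∀ v, ∀ b < B, T ≤ (D.cs v (fun i => a (b * L + i)) L : ℝ)) →
    ∀ v, B * T ≤ (D.cs v a (B * L) : ℝ) := by
  intro B
  induction B with
  | zero => intro _ v; simp
  | succ B ih =>
    intro h v
    have h1 := ih (fun v b hb => h v b (by omega)) v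
    have h2 := h (D.st v a (B * L)) B (by omega)
    have h3 : (B + 1) * L = B * L + L := by ring
    rw [h3, cs_add]
    push_cast
    linarith

end KDFA

/-! ### Exponential moments -/

lemma exp_neg_le {x : ℝ} (hx : 0 ≤ x) : Real.exp (-x) ≤ 1 - x + x ^ 2 / 2 := by
  have h1 : 1 + x + x ^ 2 / 2 ≤ Real.exp x := Real.quadratic_le_exp_of_nonneg hx
  have h2 : 0 < 1 + x + x ^ 2 / 2 := by positivity
  rw [Real.exp_neg]
  calc (Real.exp x)⁻¹ ≤ (1 + x + x ^ 2 / 2)⁻¹ := inv_anti₀ h2 h1
    _ ≤ 1 - x + x ^ 2 / 2 := by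
        rw [inv_le_iff_one_le_mul₀ h2]
        nlinarith [sq_nonneg (x ^ 2)]

lemma sum_distinct (T : Finset ℕ) : T.card * (T.card - 1) ≤ 2 * ∑ x ∈ T, x := by
  induction T using Finset.induction_on_max with
  | empty => simp
  | insert a s hs ih =>
    have hns : a ∉ s := fun h => lt_irrefl a (hs a h)
    rw [Finset.card_insert_of_notMem hns, Finset.sum_insert hns]
    have hca : s.card ≤ a := by
      have : s ⊆ Finset.range a := fun x hx => Finset.mem_range.mpr (hs x hx)
      simpa using Finset.card_le_card this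
    have : (s.card + 1) * (s.card + 1 - 1) = s.card * (s.card - 1) + 2 * s.card := by
      rcases Nat.eq_zero_or_pos s.card with h | h
      · rw [h]
      · obtain ⟨q, hq⟩ : ∃ q, s.card = q + 1 := ⟨s.card - 1, by omega⟩
        rw [hq]; simp; ring
    omega

lemma sum_exp {k : ℕ} (T : Finset (Fin k)) (f : Fin k → ℕ)
    (hf : Set.BijOn f Set.univ (Set.Icc 1 k)) (θ : ℝ) (hθ : 0 ≤ θ) :
    ∑ p ∈ T, Real.exp (-(θ * f p)) ≤
      T.card * (1 - θ * ((T.card + 1) / 2) + θ ^ 2 * k ^ 2 / 2) := by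
  have hinj : Function.Injective f := Set.injOn_univ.mp hf.injOn
  have h1 : ∀ p ∈ T, Real.exp (-(θ * f p)) ≤ 1 - θ * f p + θ ^ 2 * k ^ 2 / 2 := by
    intro p _
    have h2 := (hf.mapsTo (Set.mem_univ p))
    have h3 : (f p : ℝ) ≤ k := by exact_mod_cast h2.2
    have h4 : (0 : ℝ) ≤ f p := by positivity
    refine (exp_neg_le (by positivity)).trans ?_
    have : (θ * f p) ^ 2 ≤ θ ^ 2 * k ^ 2 := by
      rw [mul_pow]
      apply mul_le_mul_of_nonneg_left _ (by positivity)
      exact pow_le_pow_left₀ h4 h3 2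
    linarith
  have h5 : (T.card : ℝ) * (T.card + 1) / 2 ≤ ∑ p ∈ T, (f p : ℝ) := by
    -- apply sum_distinct to f - 1
    have hinj' : Set.InjOn (fun p => f p - 1) T := by
      intro p _ q _ hpq
      have h2 := (hf.mapsTo (Set.mem_univ p)).1
      have h3 := (hf.mapsTo (Set.mem_univ q)).1
      simp only at hpq
      apply hinj
      omega
    have h6 := sum_distinct (T.image (fun p => f p - 1))
    rw [Finset.card_image_of_injOn hinj', Finset.sum_image hinj'] at h6
    have h7 : ∑ p ∈ T, f p = ∑ p ∈ T, (f p - 1) + T.card := by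
      rw [Finset.card_eq_sum_ones, ← Finset.sum_add_distrib]
      apply Finset.sum_congr rfl
      intro p _
      have h2 := (hf.mapsTo (Set.mem_univ p)).1
      omega
    have h8 : T.card * (T.card + 1) ≤ 2 * ∑ p ∈ T, f p := by
      rw [h7]
      have : T.card * (T.card + 1) = T.card * (T.card - 1) + 2 * T.card := by
        rcases Nat.eq_zero_or_pos T.card with h | h
        · rw [h]
        · obtain ⟨q, hq⟩ : ∃ q, T.card = q + 1 := ⟨T.card - 1, by omega⟩
          rw [hq]; simp; ring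
      omega
    have h9 : ((T.card * (T.card + 1) : ℕ) : ℝ) ≤ ((2 * ∑ p ∈ T, f p : ℕ) : ℝ) := by
      exact_mod_cast h8
    push_cast at h9
    linarith
  calc ∑ p ∈ T, Real.exp (-(θ * f p)) ≤ ∑ p ∈ T, (1 - θ * f p + θ ^ 2 * k ^ 2 / 2) :=
        Finset.sum_le_sum h1
    _ = T.card - θ * ∑ p ∈ T, (f p : ℝ) + T.card * (θ ^ 2 * k ^ 2 / 2) := by
        rw [Finset.sum_add_distrib, Finset.sum_sub_distrib, Finset.sum_const, Finset.sum_const,
          ← Finset.mul_sum]
        simp
    _ ≤ T.card - θ * (T.card * (T.card + 1) / 2) + T.card * (θ ^ 2 * k ^ 2 / 2) := by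
        have := mul_le_mul_of_nonneg_left h5 hθ
        linarith
    _ = _ := by ring

section moment

variable {k N : ℕ} (D : KDFA k N)

/-- position -/
def pos (hk : 0 < k) (i : ℕ) : Fin k := ⟨i % k, Nat.mod_lt _ hk⟩

/-- letters of a permutation -/
def lt (hk : 0 < k) (w : Equiv.Perm (Fin k)) (i : ℕ) : Fin k := w (pos hk i)

lemma moment (hk : 0 < k) (θ : ℝ) (hθ : 0 ≤ θ) (v : Fin N) (s L : ℕ) : ∀ m, s + m ≤ k → m ≤ L →
    ∑ w : Equiv.Perm (Fin k), Real.exp (-(θ * D.cs v (fun i => lt hk w (s + i)) m)) ≤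
      (k.factorial : ℝ) * Real.exp (m * (-(θ * ((k - L) / 2)) + θ ^ 2 * k ^ 2 / 2)) := by
  intro m
  induction m with
  | zero =>
    intro _ _
    simp [KDFA.cs, Fintype.card_perm]
  | succ m ih =>
    intro hs hL
    have ih' := ih (by omega) (by omega)
    set q : ℝ := Real.exp (-(θ * ((k - L) / 2)) + θ ^ 2 * k ^ 2 / 2) with hq
    set g : Equiv.Perm (Fin k) → ℝ :=
      fun w => Real.exp (-(θ * D.cs v (fun i => lt hk w (s + i)) m)) with hg
    set F : Equiv.Perm (Fin k) → ℝ :=
      fun w => Real.exp (-(θ * D.cs v (fun i => lt hk w (s + i)) (m + 1))) with hF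
    let S : Equiv.Perm (Fin k) → Fin N := fun w => D.st v (fun i => lt hk w (s + i)) m
    let T : Finset (Fin k) := Finset.univ.filter (fun p => p.1 < s ∨ s + m ≤ p.1)
    have hT : T.card + m = k := by
      have h1 : Tᶜ.card = m := by
        have h2 : Tᶜ = (Finset.range m).attach.image
            (fun i => (⟨s + i.1, by have := Finset.mem_range.mp i.2; omega⟩ : Fin k)) := by
          ext p
          simp only [T, Finset.compl_filter, Finset.mem_filter, Finset.mem_univ, true_and,
            Finset.mem_image, Finset.mem_attach, Subtype.exists, Finset.mem_range]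
          constructor
          · intro hp
            push Not at hp
            exact ⟨p.1 - s, by omega, by apply Fin.ext; simp only; omega⟩
          · rintro ⟨i, hi, rfl⟩
            simp only; omega
        rw [h2, Finset.card_image_of_injective]
        · simp
        · intro i j hij
          simp only [Fin.mk.injEq] at hij
          apply Subtype.ext; omega
      have h3 := Finset.card_add_card_compl T
      rw [h1, Fintype.card_fin] at h3
      exact h3
    have hpos : ∀ i, i < k → (pos hk i).1 = i := fun i hi => Nat.mod_eq_of_lt hi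
    have hsym : ∀ p ∈ T, ∑ w, F w = ∑ w, g w * Real.exp (-(θ * D.c (S w) (w p))) := by
      intro p hp
      simp only [T, Finset.mem_filter, Finset.mem_univ, true_and] at hp
      rw [← Equiv.sum_comp (Equiv.mulRight (Equiv.swap (pos hk (s + m)) p)) F]
      apply Finset.sum_congr rfl
      intro w _
      have h1 : ∀ i < m, lt hk (w * Equiv.swap (pos hk (s + m)) p) (s + i) = lt hk w (s + i) := by
        intro i hi
        unfold lt
        rw [Equiv.Perm.mul_apply, Equiv.swap_apply_of_ne_of_ne]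
        · intro h
          have := congrArg Fin.val h
          rw [hpos _ (by omega), hpos _ (by omega)] at this
          omega
        · intro h
          have := congrArg Fin.val h
          rw [hpos _ (by omega)] at this
          omega
      have h2 : lt hk (w * Equiv.swap (pos hk (s + m)) p) (s + m) = w p := by
        unfold lt
        rw [Equiv.Perm.mul_apply, Equiv.swap_apply_left]
      rw [Equiv.coe_mulRight]
      simp only [hF, hg]
      show Real.exp (-(θ * ((D.cs v (fun i => lt hk (w * Equiv.swap (pos hk (s + m)) p) (s + i)) m +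
        D.c (D.st v (fun i => lt hk (w * Equiv.swap (pos hk (s + m)) p) (s + i)) m)
          (lt hk (w * Equiv.swap (pos hk (s + m)) p) (s + m)) : ℕ) : ℝ))) = _
      rw [h2, D.cs_congr v m h1, D.st_congr v m h1, ← Real.exp_add]
      congr 1
      push_cast
      ring
    have hTpos : (0 : ℝ) < T.card := by
      have : 0 < T.card := by omega
      exact_mod_cast this
    have hsum : (T.card : ℝ) * ∑ w, F w ≤ T.card * (q * ∑ w, g w) := by
      calc (T.card : ℝ) * ∑ w, F w = ∑ p ∈ T, ∑ w, F w := by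
            rw [Finset.sum_const, nsmul_eq_mul]
        _ = ∑ p ∈ T, ∑ w, g w * Real.exp (-(θ * D.c (S w) (w p))) :=
            Finset.sum_congr rfl hsym
        _ = ∑ w, g w * ∑ p ∈ T, Real.exp (-(θ * D.c (S w) (w p))) := by
            rw [Finset.sum_comm]
            apply Finset.sum_congr rfl
            intro w _
            rw [Finset.mul_sum]
        _ ≤ ∑ w, g w * (T.card * q) := by
            apply Finset.sum_le_sum
            intro w _
            apply mul_le_mul_of_nonneg_left _ (Real.exp_pos _).le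
            have h1 := sum_exp (T.map w.toEmbedding) (D.c (S w)) (D.hc (S w)) θ hθ
            rw [Finset.sum_map, Finset.card_map] at h1
            simp only [Equiv.coe_toEmbedding] at h1
            refine h1.trans ?_
            apply mul_le_mul_of_nonneg_left _ hTpos.le
            have h2 : ((k : ℝ) - L) / 2 ≤ (T.card + 1) / 2 := by
              have : ((T.card + m : ℕ) : ℝ) = k := by rw [hT]
              push_cast at this
              have h3 : ((m + 1 : ℕ) : ℝ) ≤ L := by exact_mod_cast hL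
              push_cast at h3
              linarith
            have h3 := mul_le_mul_of_nonneg_left h2 hθ
            have h4 := Real.add_one_le_exp (-(θ * (((k : ℝ) - L) / 2)) + θ ^ 2 * k ^ 2 / 2)
            rw [← hq] at h4
            linarith
        _ = T.card * (q * ∑ w, g w) := by
            rw [← Finset.sum_mul]; ring
    have hfin : ∑ w, F w ≤ q * ∑ w, g w := le_of_mul_le_mul_left hsum hTpos
    calc ∑ w, F w ≤ q * ∑ w, g w := hfin
      _ ≤ q * ((k.factorial : ℝ) * Real.exp (m * (-(θ * ((k - L) / 2)) + θ ^ 2 * k ^ 2 / 2))) :=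
          mul_le_mul_of_nonneg_left ih' (Real.exp_pos _).le
      _ = _ := by
          rw [hq, mul_left_comm, ← Real.exp_add]
          congr 2
          push_cast
          ring

/-- Chernoff bound for one block. -/
lemma chernoff (hk : 0 < k) (v : Fin N) (s L : ℕ) (hL : 0 < L) (hs : s + L ≤ k) (lam : ℝ)
    (hlam : 0 ≤ lam) :
    ((Finset.univ.filter (fun w : Equiv.Perm (Fin k) =>
      (D.cs v (fun i => lt hk w (s + i)) L : ℝ) < L * ((k - L) / 2) - lam)).card : ℝ) ≤
      (k.factorial : ℝ) * Real.exp (-(lam ^ 2 / (2 * L * k ^ 2))) := by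
  have hkR : (0 : ℝ) < k := by exact_mod_cast hk
  have hLR : (0 : ℝ) < L := by exact_mod_cast hL
  set θ : ℝ := lam / (L * k ^ 2) with hθd
  have hθ : 0 ≤ θ := by positivity
  have h1 := moment D hk θ hθ v s L L hs le_rfl
  set A := Finset.univ.filter (fun w : Equiv.Perm (Fin k) =>
      (D.cs v (fun i => lt hk w (s + i)) L : ℝ) < L * ((k - L) / 2) - lam) with hA
  set T : ℝ := L * ((k - L) / 2) - lam with hT
  have h2 : (A.card : ℝ) * Real.exp (-(θ * T)) ≤
      ∑ w : Equiv.Perm (Fin k), Real.exp (-(θ * D.cs v (fun i => lt hk w (s + i)) L)) := by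
    calc (A.card : ℝ) * Real.exp (-(θ * T)) = ∑ w ∈ A, Real.exp (-(θ * T)) := by
          rw [Finset.sum_const, nsmul_eq_mul]
      _ ≤ ∑ w ∈ A, Real.exp (-(θ * D.cs v (fun i => lt hk w (s + i)) L)) := by
          apply Finset.sum_le_sum
          intro w hw
          rw [hA, Finset.mem_filter] at hw
          apply Real.exp_le_exp.mpr
          have := mul_le_mul_of_nonneg_left hw.2.le hθ
          linarith
      _ ≤ _ := by
          apply Finset.sum_le_sum_of_subset_of_nonneg (Finset.subset_univ _)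
          intro w _ _
          exact (Real.exp_pos _).le
  have h3 := h2.trans h1
  have h4 : (A.card : ℝ) = (A.card : ℝ) * Real.exp (-(θ * T)) * Real.exp (θ * T) := by
    rw [mul_assoc, ← Real.exp_add]; simp
  rw [h4]
  calc (A.card : ℝ) * Real.exp (-(θ * T)) * Real.exp (θ * T) ≤
      ((k.factorial : ℝ) * Real.exp (L * (-(θ * ((k - L) / 2)) + θ ^ 2 * k ^ 2 / 2))) *
        Real.exp (θ * T) := mul_le_mul_of_nonneg_right h3 (Real.exp_pos _).le
    _ = (k.factorial : ℝ) * Real.exp (-(lam ^ 2 / (2 * L * k ^ 2))) := by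
        rw [mul_assoc, ← Real.exp_add]
        congr 2
        rw [hT, hθd]
        field_simp
        ring

/-- The union bound. -/
lemma union_bound (hk : 0 < k) (L : ℕ) (hL : 0 < L) (lam : ℝ) (hlam : 0 ≤ lam) (n : ℝ)
    (hn : n < ((k / L : ℕ) : ℝ) * (L * ((k - L) / 2) - lam)) :
    (D.good n : ℝ) ≤ N * k * ((k.factorial : ℝ) * Real.exp (-(lam ^ 2 / (2 * L * k ^ 2)))) := by
  set M : ℝ := (k.factorial : ℝ) * Real.exp (-(lam ^ 2 / (2 * L * k ^ 2))) with hM
  set T : ℝ := L * ((k - L) / 2) - lam with hT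
  let Bad : Fin N → ℕ → Finset (Equiv.Perm (Fin k)) := fun v b =>
    Finset.univ.filter (fun w : Equiv.Perm (Fin k) =>
      (D.cs v (fun i => lt hk w (b * L + i)) L : ℝ) < T)
  have hBad : ∀ v, ∀ b < k / L, ((Bad v b).card : ℝ) ≤ M := by
    intro v b hb
    apply chernoff D hk v (b * L) L hL _ lam hlam
    calc b * L + L = (b + 1) * L := by ring
      _ ≤ (k / L) * L := Nat.mul_le_mul_right _ hb
      _ ≤ k := Nat.div_mul_le_self k L
  have hsub : Finset.univ.filter (fun w : Equiv.Perm (Fin k) =>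
      (D.cost D.root (List.ofFn w) : ℝ) ≤ n) ⊆
      (Finset.univ : Finset (Fin N)).biUnion (fun v => (Finset.range (k / L)).biUnion
        (fun b => Bad v b)) := by
    intro w hw
    rw [Finset.mem_filter] at hw
    by_contra hcon
    simp only [Finset.mem_biUnion, Finset.mem_univ, true_and, Finset.mem_range, not_exists,
      not_and] at hcon
    have h1 : ∀ v, ∀ b < k / L, T ≤ (D.cs v (fun i => lt hk w (b * L + i)) L : ℝ) := by
      intro v b hb
      have := hcon v b hb
      simp only [Bad, Finset.mem_filter, Finset.mem_univ, true_and, not_lt] at this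
      exact this
    have h2 := D.blocks (lt hk w) L T (k / L) h1 D.root
    have h3 : D.cost D.root (List.ofFn w) = D.cs D.root (lt hk w) k := by
      rw [← D.cost_ofFn k D.root (lt hk w)]
      congr 2
      funext i
      unfold lt pos
      congr 1
      apply Fin.ext
      exact (Nat.mod_eq_of_lt i.2).symm
    have h4 : D.cs D.root (lt hk w) ((k / L) * L) ≤ D.cs D.root (lt hk w) k :=
      D.cs_mono _ _ (Nat.div_mul_le_self k L)
    have h5 : ((D.cs D.root (lt hk w) ((k / L) * L) : ℕ) : ℝ) ≤ D.cs D.root (lt hk w) k := by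
      exact_mod_cast h4
    rw [h3] at hw
    linarith [hw.2]
  have hgood : D.good n = (Finset.univ.filter (fun w : Equiv.Perm (Fin k) =>
      (D.cost D.root (List.ofFn w) : ℝ) ≤ n)).card := by
    unfold KDFA.good
    rw [Nat.card_eq_fintype_card, Fintype.card_subtype]
  rw [hgood]
  calc ((Finset.univ.filter (fun w : Equiv.Perm (Fin k) =>
      (D.cost D.root (List.ofFn w) : ℝ) ≤ n)).card : ℝ)
      ≤ (((Finset.univ : Finset (Fin N)).biUnion (fun v => (Finset.range (k / L)).biUnion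
        (fun b => Bad v b))).card : ℝ) := by exact_mod_cast Finset.card_le_card hsub
    _ ≤ ((∑ v : Fin N, ((Finset.range (k / L)).biUnion (fun b => Bad v b)).card : ℕ) : ℝ) := by
        exact_mod_cast Finset.card_biUnion_le
    _ = ∑ v : Fin N, (((Finset.range (k / L)).biUnion (fun b => Bad v b)).card : ℝ) := by
        push_cast; rfl
    _ ≤ ∑ v : Fin N, (k : ℝ) * M := by
        apply Finset.sum_le_sum
        intro v _
        calc (((Finset.range (k / L)).biUnion (fun b => Bad v b)).card : ℝ)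
            ≤ ((∑ b ∈ Finset.range (k / L), (Bad v b).card : ℕ) : ℝ) := by
              exact_mod_cast Finset.card_biUnion_le
          _ = ∑ b ∈ Finset.range (k / L), ((Bad v b).card : ℝ) := by push_cast; rfl
          _ ≤ ∑ b ∈ Finset.range (k / L), M :=
              Finset.sum_le_sum (fun b hb => hBad v b (Finset.mem_range.mp hb))
          _ = ((k / L : ℕ) : ℝ) * M := by rw [Finset.sum_const, nsmul_eq_mul, Finset.card_range]
          _ ≤ (k : ℝ) * M := by
              apply mul_le_mul_of_nonneg_right _ (by positivity)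
              exact_mod_cast Nat.div_le_self k L
    _ = N * k * M := by
        rw [Finset.sum_const, nsmul_eq_mul, Finset.card_univ, Fintype.card_fin]; ring

end moment

lemma G_le {k N : ℕ} {n M : ℝ} (hM : 0 ≤ M) (h : ∀ D : KDFA k N, (D.good n : ℝ) ≤ M) :
    (G k n N : ℝ) ≤ M := by
  have h1 : G k n N ≤ ⌊M⌋₊ := by
    unfold G
    apply ciSup_le'
    intro D
    exact Nat.le_floor (h D)
  calc (G k n N : ℝ) ≤ (⌊M⌋₊ : ℝ) := by exact_mod_cast h1
    _ ≤ M := Nat.floor_le hM

open Filter Topology in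
lemma main (c₃ c : ℝ) (hc₃ : 5 / 3 < c₃) (hc : 0 < c) :
    Tendsto (fun k : ℕ => (G k ((k : ℝ) ^ 2 / 2 - c * (k : ℝ) ^ c₃) (k ^ 2) : ℝ) /
      (k.factorial : ℝ)) atTop (𝓝 0) := by
  set ε : ℝ := c₃ - 5 / 3 with hε
  have hε0 : 0 < ε := by rw [hε]; linarith
  have e1 : ∀ᶠ k : ℕ in atTop, 8 * Real.log k ≤ (c / 2 * (k : ℝ) ^ ε) ^ 2 := by
    have h1 := (isLittleO_log_rpow_atTop (show 0 < 2 * ε by linarith)).def
      (show 0 < c ^ 2 / 32 by positivity)
    have h2 := tendsto_natCast_atTop_atTop (R := ℝ).eventually h1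
    filter_upwards [h2, eventually_ge_atTop 1] with k hk hk1
    have hkR : (1 : ℝ) ≤ k := by exact_mod_cast hk1
    rw [Real.norm_of_nonneg (Real.log_nonneg hkR),
      Real.norm_of_nonneg (Real.rpow_nonneg (by linarith) _)] at hk
    have h3 : ((k : ℝ) ^ ε) ^ 2 = (k : ℝ) ^ (2 * ε) := by
      rw [← Real.rpow_natCast, ← Real.rpow_mul (by linarith)]
      congr 1; push_cast; ring
    rw [mul_pow, h3]
    nlinarith
  have e2 : ∀ᶠ k : ℕ in atTop, 2 < c / 2 * (k : ℝ) ^ ε := by
    have h1 : Tendsto (fun k : ℕ => (k : ℝ) ^ ε) atTop atTop :=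
      (tendsto_rpow_atTop hε0).comp tendsto_natCast_atTop_atTop
    filter_upwards [h1.eventually_gt_atTop (4 / c)] with k hk
    rw [div_lt_iff₀ hc] at hk
    linarith
  have hbound : ∀ᶠ k : ℕ in atTop, (G k ((k : ℝ) ^ 2 / 2 - c * (k : ℝ) ^ c₃) (k ^ 2) : ℝ) /
      (k.factorial : ℝ) ≤ 1 / (k : ℝ) := by
    filter_upwards [e1, e2, eventually_ge_atTop 2] with k h1 h2 hk2
    have hk : 0 < k := by omega
    have hkR : (2 : ℝ) ≤ k := by exact_mod_cast hk2
    have hk0 : (0 : ℝ) < k := by linarith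
    have hk1 : (1 : ℝ) ≤ k := by linarith
    have hlog : 0 ≤ Real.log k := Real.log_nonneg hk1
    set L : ℕ := ⌈(k : ℝ) ^ (2 / 3 : ℝ)⌉₊ with hL
    have hL1 : (k : ℝ) ^ (2 / 3 : ℝ) ≤ L := Nat.le_ceil _
    have hL2 : (L : ℝ) < (k : ℝ) ^ (2 / 3 : ℝ) + 1 := Nat.ceil_lt_add_one (by positivity)
    have hLk : L ≤ k := by
      rw [hL, Nat.ceil_le]
      calc (k : ℝ) ^ (2 / 3 : ℝ) ≤ (k : ℝ) ^ (1 : ℝ) :=
            Real.rpow_le_rpow_of_exponent_le hk1 (by norm_num)
        _ = k := Real.rpow_one _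
    have hLkR : (L : ℝ) ≤ k := by exact_mod_cast hLk
    have hLpos : 0 < L := by
      rw [hL, Nat.ceil_pos]; positivity
    have hLR : (0 : ℝ) < L := by exact_mod_cast hLpos
    set lam : ℝ := Real.sqrt (8 * L * Real.log k) * k with hlam
    have hlam0 : 0 ≤ lam := by positivity
    have hB1 : ((k / L : ℕ) : ℝ) * L ≤ k := by
      exact_mod_cast Nat.div_mul_le_self k L
    have hB2 : (k : ℝ) - L ≤ ((k / L : ℕ) : ℝ) * L := by
      have h3 := Nat.div_add_mod k L
      have h4 := Nat.mod_lt k hLpos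
      have h5 : k ≤ (k / L) * L + L := by
        rw [mul_comm]; omega
      have h6 : (k : ℝ) ≤ ((k / L : ℕ) : ℝ) * L + L := by exact_mod_cast h5
      linarith
    -- the size of the error terms
    have hBlam : ((k / L : ℕ) : ℝ) * lam ≤ (k : ℝ) ^ (5 / 3 : ℝ) * (c / 2 * (k : ℝ) ^ ε) := by
      have h3 : Real.sqrt (8 * L * Real.log k) ≤ Real.sqrt L * (c / 2 * (k : ℝ) ^ ε) := by
        have : 8 * (L : ℝ) * Real.log k = L * (8 * Real.log k) := by ring
        rw [this, Real.sqrt_mul hLR.le]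
        apply mul_le_mul_of_nonneg_left _ (Real.sqrt_nonneg _)
        rw [show c / 2 * (k : ℝ) ^ ε = Real.sqrt ((c / 2 * (k : ℝ) ^ ε) ^ 2) from
          (Real.sqrt_sq (by positivity)).symm]
        exact Real.sqrt_le_sqrt h1
      have h4 : (k : ℝ) ^ (1 / 3 : ℝ) ≤ Real.sqrt L := by
        rw [Real.sqrt_eq_rpow]
        calc (k : ℝ) ^ (1 / 3 : ℝ) = ((k : ℝ) ^ (2 / 3 : ℝ)) ^ (1 / 2 : ℝ) := by
              rw [← Real.rpow_mul hk0.le]; norm_num
          _ ≤ (L : ℝ) ^ (1 / 2 : ℝ) := Real.rpow_le_rpow (by positivity) hL1 (by norm_num)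
      have h5 : (0 : ℝ) < (k : ℝ) ^ (1 / 3 : ℝ) := by positivity
      have h6 : Real.sqrt L * Real.sqrt L = L := Real.mul_self_sqrt hLR.le
      have h7 : 0 < Real.sqrt L := Real.sqrt_pos.mpr hLR
      -- (k / L) * sqrt L ≤ k / k^(1/3) = k^(2/3)
      have h8 : ((k / L : ℕ) : ℝ) * Real.sqrt L ≤ (k : ℝ) ^ (2 / 3 : ℝ) := by
        have h9 : ((k / L : ℕ) : ℝ) * Real.sqrt L * Real.sqrt L ≤ k := by
          rw [mul_assoc, h6]; exact hB1
        have h10 : (k : ℝ) = (k : ℝ) ^ (2 / 3 : ℝ) * (k : ℝ) ^ (1 / 3 : ℝ) := by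
          rw [← Real.rpow_add hk0]; norm_num
        have h11 : ((k / L : ℕ) : ℝ) * Real.sqrt L * Real.sqrt L ≤
            (k : ℝ) ^ (2 / 3 : ℝ) * Real.sqrt L := by
          calc _ ≤ (k : ℝ) := h9
            _ = (k : ℝ) ^ (2 / 3 : ℝ) * (k : ℝ) ^ (1 / 3 : ℝ) := h10
            _ ≤ _ := mul_le_mul_of_nonneg_left h4 (by positivity)
        exact le_of_mul_le_mul_right h11 h7
      have h12 : (k : ℝ) ^ (5 / 3 : ℝ) = (k : ℝ) ^ (2 / 3 : ℝ) * k := by
        conv_rhs => rw [← Real.rpow_one (k : ℝ)]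
        rw [← Real.rpow_mul hk0.le, one_mul, ← Real.rpow_add hk0]; norm_num
      calc ((k / L : ℕ) : ℝ) * lam = ((k / L : ℕ) : ℝ) * Real.sqrt (8 * L * Real.log k) * k := by
            rw [hlam]; ring
        _ ≤ ((k / L : ℕ) : ℝ) * (Real.sqrt L * (c / 2 * (k : ℝ) ^ ε)) * k := by
            apply mul_le_mul_of_nonneg_right _ hk0.le
            exact mul_le_mul_of_nonneg_left h3 (by positivity)
        _ = (((k / L : ℕ) : ℝ) * Real.sqrt L) * ((c / 2 * (k : ℝ) ^ ε) * k) := by ring
        _ ≤ (k : ℝ) ^ (2 / 3 : ℝ) * ((c / 2 * (k : ℝ) ^ ε) * k) :=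
            mul_le_mul_of_nonneg_right h8 (by positivity)
        _ = _ := by rw [h12]; ring
    have hkL : (k : ℝ) * L < (k : ℝ) ^ (5 / 3 : ℝ) * (c / 2 * (k : ℝ) ^ ε) := by
      have h12 : (k : ℝ) ^ (5 / 3 : ℝ) = (k : ℝ) ^ (2 / 3 : ℝ) * k := by
        conv_rhs => rw [← Real.rpow_one (k : ℝ)]
        rw [← Real.rpow_mul hk0.le, one_mul, ← Real.rpow_add hk0]; norm_num
      have h13 : (1 : ℝ) ≤ (k : ℝ) ^ (2 / 3 : ℝ) := Real.one_le_rpow hk1 (by norm_num)
      calc (k : ℝ) * L < k * ((k : ℝ) ^ (2 / 3 : ℝ) + 1) := mul_lt_mul_of_pos_left hL2 hk0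
        _ ≤ k * ((k : ℝ) ^ (2 / 3 : ℝ) * 2) := mul_le_mul_of_nonneg_left (by linarith) hk0.le
        _ = (k : ℝ) ^ (5 / 3 : ℝ) * 2 := by rw [h12]; ring
        _ ≤ _ := mul_le_mul_of_nonneg_left h2.le (by positivity)
    have hsplit : c * (k : ℝ) ^ c₃ = 2 * ((k : ℝ) ^ (5 / 3 : ℝ) * (c / 2 * (k : ℝ) ^ ε)) := by
      have : c₃ = 5 / 3 + ε := by rw [hε]; ring
      rw [this, Real.rpow_add hk0]; ring
    have hn : (k : ℝ) ^ 2 / 2 - c * (k : ℝ) ^ c₃ <
        ((k / L : ℕ) : ℝ) * (L * ((k - L) / 2) - lam) := by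
      have h14 : ((k : ℝ) - L) * ((k - L) / 2) ≤ (((k / L : ℕ) : ℝ) * L) * ((k - L) / 2) :=
        mul_le_mul_of_nonneg_right hB2 (by linarith)
      have h15 : ((k / L : ℕ) : ℝ) * (L * ((k - L) / 2) - lam) =
          (((k / L : ℕ) : ℝ) * L) * ((k - L) / 2) - ((k / L : ℕ) : ℝ) * lam := by ring
      rw [h15, hsplit]
      nlinarith [sq_nonneg (L : ℝ)]
    have hexp : Real.exp (-(lam ^ 2 / (2 * L * k ^ 2))) = 1 / (k : ℝ) ^ 4 := by
      have h16 : lam ^ 2 / (2 * L * k ^ 2) = 4 * Real.log k := by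
        rw [hlam, mul_pow, Real.sq_sqrt (by positivity)]
        field_simp
        ring
      rw [h16, Real.exp_neg, show (4 : ℝ) * Real.log k = ((4 : ℕ) : ℝ) * Real.log k by norm_num,
        Real.exp_nat_mul, Real.exp_log hk0, one_div]
    have hG : (G k ((k : ℝ) ^ 2 / 2 - c * (k : ℝ) ^ c₃) (k ^ 2) : ℝ) ≤
        ((k ^ 2 : ℕ) : ℝ) * k * ((k.factorial : ℝ) * Real.exp (-(lam ^ 2 / (2 * L * k ^ 2)))) :=
      G_le (by positivity) (fun D => union_bound D hk L hLpos lam hlam0 _ hn)
    rw [hexp] at hG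
    have hfac : (0 : ℝ) < k.factorial := by exact_mod_cast k.factorial_pos
    rw [div_le_iff₀ hfac]
    refine hG.trans (le_of_eq ?_)
    push_cast
    field_simp
  have hlim : Tendsto (fun k : ℕ => 1 / (k : ℝ)) atTop (𝓝 0) := tendsto_one_div_atTop_nhds_zero_nat
  apply squeeze_zero' _ hbound hlim
  filter_upwards with k
  positivity

/-- For every `c₃ > 5/3` and `c > 0`, `G(k, k²/2 - c k^{c₃}, k²) = o(k!)`; in particular this holds
for some `c₃ < 7/4`. -/
theorem result :
    (∀ c₃ c : ℝ, 5 / 3 < c₃ → 0 < c →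
      Filter.Tendsto (fun k : ℕ => (G k ((k : ℝ) ^ 2 / 2 - c * (k : ℝ) ^ c₃) (k ^ 2) : ℝ) /
        (k.factorial : ℝ)) Filter.atTop (nhds 0)) ∧
    ∃ c₃ c : ℝ, c₃ < 7 / 4 ∧ 0 < c ∧
      Filter.Tendsto (fun k : ℕ => (G k ((k : ℝ) ^ 2 / 2 - c * (k : ℝ) ^ c₃) (k ^ 2) : ℝ) /
        (k.factorial : ℝ)) Filter.atTop (nhds 0) :=
  ⟨fun c₃ c h1 h2 => main c₃ c h1 h2,
    17 / 10, 1, by norm_num, by norm_num, main (17 / 10) 1 (by norm_num) (by norm_num)⟩

end Pool.Agent.Results.MP_91d3dc_co.LowCostWalks
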